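import Pool.Agent.H274R3.Dp.Final

set_option autoImplicit false

/-!
# For how many oracles does the chain of bounded nondeterminism collapse somewhere?

`NPg A g` is nondeterministic polynomial time relative to the oracle `A` with `g(|x|)`
nondeterministic bits, and the chain consists of the classes with `log n`, `n`, `n ^ 2`, `n ^ 3`
bits and so on (`cg 0`, `cg 1`, ...). Sets of oracles are measured by gauges `f` (the weight of an
initial segment `σ` is `2 ^ (f |σ| - |σ|)`; for `f = 0` one gets the Lebesgue null sets). The exact
threshold for the set of the oracles for which some inclusion of the chain is an equality is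
`f N ≤ 2 ^ ((log N) ^ ε)`, infinitely often, for every `ε`. It is the same for the set of the oracles
for which the whole chain collapses to `P^A` and for the smaller set of the oracles with `PSPACE^A`
reducible to `A`. More generally, for any `g₁` and `g₂` for which the difference `g₂ - g₁` grows
faster than every multiple of `log n`, the set of the oracles for which `g₂` nondeterministic bits
are not better than `g₁` bits and an advice of polynomial length has this threshold. (A difference
of `O (log n)` bits makes no difference, for any oracle.)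

The main step is a direct product theorem for decision trees (`Pool.Agent.H274R3.Dp.direct`): there
are `K` disjoint blocks, each of them with `2 ^ m` disjoint windows of `m` bits, and a block is hit
if some window is all true. Decision trees of depth at most `2 ^ m / 16` guess for each block
whether it is hit (they may look at the other blocks). Then the probability that all guesses are
right is at most `(7 / 8) ^ K`. The number `K` may be much smaller or much larger than `2 ^ m`. The
proof uses a potential function: the product over all blocks of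
`3 / 4 + ∑ ((w - 2^(-m))⁺ + 2 (2^(-m) - w)⁺)`, where `w` runs through the conditional probabilities
that the windows are all true; it grows on average at most by the factor `1 + 2 / 2 ^ m` with every
question.
-/

namespace Pool.Agent.Results.MP_cd574d_lc.EveryInclusion

open Pool.Agent.NPC Pool.Agent.H620R2.Gauge Pool.Agent.H274R3.Dp Filter

/-- The exact gauge threshold for the set of oracles relative to which some inclusion of the chain
is an equality. -/
theorem result (f : ℕ → ℝ) :
    (∀ (g₁ g₂ : ℕ → ℕ) (b : Polynomial ℕ), (∀ n, g₂ n ≤ b.eval n) →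
      (∀ c : ℕ, ∀ᶠ n : ℕ in atTop, g₁ n + c * Nat.log 2 n ≤ g₂ n) →
      ∀ O : Set Oracle, {A : Oracle | ∀ L, IsPSPACE A L → Reduces L {x | A x = true}} ⊆ O →
        O ⊆ {A : Oracle | ∀ L, NPg A g₂ L → NPgPoly A g₁ L} →
        (Null f O ↔
          ∀ ε : ℝ, 0 < ε → ∃ᶠ N : ℕ in atTop, f N ≤ 2 ^ (Real.logb 2 N) ^ ε)) ∧
    (∀ O : Set Oracle, {A : Oracle | ∀ L, IsPSPACE A L → Reduces L {x | A x = true}} ⊆ O →
      O ⊆ {A : Oracle | ∃ k, ∀ L, NPg A (cg (k + 1)) L → NPgPoly A (cg k) L} →
      (Null f O ↔
        ∀ ε : ℝ, 0 < ε → ∃ᶠ N : ℕ in atTop, f N ≤ 2 ^ (Real.logb 2 N) ^ ε)) ∧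
    (Null f {A : Oracle | ∃ k, ∀ L, NPg A (cg (k + 1)) L → NPg A (cg k) L} ↔
      ∀ ε : ℝ, 0 < ε → ∃ᶠ N : ℕ in atTop, f N ≤ 2 ^ (Real.logb 2 N) ^ ε) ∧
    (Null f {A : Oracle | ∀ k, ∀ L, NPg A (cg (k + 1)) L → NPg A (cg k) L} ↔
      ∀ ε : ℝ, 0 < ε → ∃ᶠ N : ℕ in atTop, f N ≤ 2 ^ (Real.logb 2 N) ^ ε) :=
  mainG f

end Pool.Agent.Results.MP_cd574d_lc.EveryInclusion
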